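import Pool.Agent.N748.HM.Stm
import Pool.Agent.N748.GC.BADA

set_option autoImplicit false

/-!
# HM/BADA3: large sums over blocks carry little mass, arbitrary exponents

Port of `Pool.Agent.N748.GC.BADA` (project HM of helper51).
-/

namespace Pool.Agent.V5helper15.HM.BADA3

open Finset Filter MeasureTheory MonoidAlgebra Topology Complex
open Pool.Agent.N748.GC Pool.Agent.N748.GC.BADA Pool.Agent.N748.HM

/-- the detecting polynomial -/
lemma qa_norm (A z : ℕ) (y : ℝ) (Rs i : ℕ) (s : ℂ) (hR : 1 ≤ Rs)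
    (h : (RB Rs i : ℝ) < A * ‖ec s (xc (IB z y i))‖) : 1 ≤ ‖ec s (QA A z y Rs i)‖ ^ 2 := by
  have hR0 : (0:ℝ) < (RB Rs i : ℝ) := by
    have : 0 < RB Rs i := by unfold RB; omega
    exact_mod_cast this
  unfold QA
  rw [map_smul, map_pow, norm_smul, norm_pow, Complex.norm_real,
    Real.norm_of_nonneg (by positivity), ← mul_pow]
  have h1 : 1 ≤ (A:ℝ) / (RB Rs i : ℝ) * ‖ec s (xc (IB z y i))‖ := by
    rw [div_mul_eq_mul_div, le_div_iff₀ hR0, one_mul]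
    exact h.le
  exact one_le_pow₀ (one_le_pow₀ h1)

open Classical in
theorem t_BADA3 (hQ : S_NNQ3) (hL : S_LEN3) : S_BADA3 := by
  intro A α hα0 hαA c hc e he
  obtain ⟨C, R1, hC, hQ⟩ := hQ c hc A
  obtain ⟨R2, hR2⟩ : ∃ R2 : ℕ, ∀ Rs ≥ R2, C * (2 * Real.exp (-(2 * (Rs:ℝ)))) ≤ e := by
    have h1 : Tendsto (fun n : ℕ => C * (2 * Real.exp (-(2 * (n:ℝ))))) atTop
        (𝓝 (C * (2 * 0))) := by
      refine Tendsto.const_mul _ (Tendsto.const_mul _ ?_)
      exact Real.tendsto_exp_neg_atTop_nhds_zero.comp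
        (tendsto_natCast_atTop_atTop.const_mul_atTop two_pos)
    rw [mul_zero, mul_zero] at h1
    obtain ⟨R2, hR2⟩ := (h1.eventually_le_const he).exists_forall_of_atTop
    exact ⟨R2, hR2⟩
  refine ⟨1000, max (max (max R1 R2) 1) A, ?_⟩
  intro z hz K _ _ F hF hF0 η hη
  obtain ⟨ε', hε'⟩ : ∃ ε' : ℝ, ε' = η / (2 * (e + 1)) := ⟨_, rfl⟩
  have hε'0 : 0 < ε' := by rw [hε']; positivity
  have hε'3 : ε' * (e + 1) = η / 2 := by
    rw [hε']
    field_simp
  have hε'1 : ε' * e ≤ η / 2 := by nlinarith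
  have hε'2 : ε' ≤ η / 2 := by nlinarith
  filter_upwards [EQ.main MV.main (Sm z) (sm_prime z) K F hF ε' hε'0, ev1] with
    X h1 h3 Rs J y hRs' hSP δ hδ k x
  have hRs : max (max R1 R2) 1 ≤ Rs := (le_max_left _ _).trans hRs'
  have hRA : A ≤ Rs := (le_max_right _ _).trans hRs'
  have hRs1 : R1 ≤ Rs := (le_max_left _ _).trans ((le_max_left _ _).trans hRs)
  have hRs2 : R2 ≤ Rs := (le_max_right _ _).trans ((le_max_left _ _).trans hRs)
  have hRs3 : 1 ≤ Rs := (le_max_right _ _).trans hRs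
  have hCe := hR2 Rs hRs2
  obtain ⟨g1, g2, g3, g4⟩ := h3
  have hX0 : 0 < X := by linarith
  have hXl : 0 ≤ Xl X := by unfold Xl; positivity
  unfold WP G1
  have i1 := hSP.zy
  have i2 := hSP.bJ
  have i3 := hSP.bl
  have i4 := hSP.len
  have hz' : (1000:ℝ) ≤ z := by exact_mod_cast hz
  have hy1 : 1 ≤ y := by linarith
  have hz144 : 144 ≤ z := by omega
  obtain ⟨len1, len2⟩ := hL A z J Rs y hz144 hy1 hRs3 hRA (fun i hi => (i3 i hi).1)
  obtain ⟨lb1, lb2⟩ := len1 (fun _ => α) (fun _ => ⟨hα0.le, hαA⟩) 0 (Nat.zero_le _)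
  obtain ⟨BB, hBB⟩ : ∃ BB : PC, BB = BP (fun _ => α) z y 0 J Rs := ⟨_, rfl⟩
  rw [← hBB] at lb1 lb2 ⊢
  obtain ⟨V, hV⟩ : ∃ V : ℝ, V = Real.exp (α ^ 2 * VB δ z y 0 J) := ⟨_, rfl⟩
  have hV0 : 0 < V := by rw [hV]; exact Real.exp_pos _
  have hV1 : 1 ≤ V := by
    rw [hV]
    apply Real.one_le_exp
    apply mul_nonneg (sq_nonneg _)
    unfold VB
    exact sum_nonneg fun i _ => sum_nonneg fun p _ => MV.wd_nonneg δ p
  obtain ⟨IF, hIF⟩ : ∃ IF : ℝ, IF = ∫ y, F (k, y) ∂(HP (Sm z)) := ⟨_, rfl⟩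
  have hIF0 : 0 ≤ IF := by
    rw [hIF]
    exact integral_nonneg fun y => hF0 _
  rw [← hV, ← hIF]
  -- lengths
  have hlen : Real.exp (Real.log y * (90 * ((Rs:ℝ) + 1))) *
      Real.exp (Real.log y * (90 * ((Rs:ℝ) + 1))) ≤ X ^ ((1:ℝ) / 8) := by
    rw [← Real.exp_add]
    refine le_trans (le_of_eq ?_) (i4.trans g2)
    congr 1
    ring
  have hcop : ∀ i < J, Cop (Sm z) (X ^ ((1:ℝ) / 8)) (BB * QA A z y Rs i) := fun i hi =>
    Cop_mono hlen (MV.Cop_mul (sm_prime z) (Real.exp_pos _).le lb1 (len2 i hi).1)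
  have hlc : ∀ i < J, lc1 (BB * QA A z y Rs i) ≤ X ^ ((1:ℝ) / 8) := by
    intro i hi
    refine (MV.lc1_mul _ _).trans (le_trans ?_ hlen)
    exact mul_le_mul lb2 (len2 i hi).2 (MV.lc1_nonneg _) (Real.exp_pos _).le
  have hne : ∀ i < J, ∀ n ∈ (BB * QA A z y Rs i).coeff.support, n ≠ 0 := fun i hi n hn =>
    (hcop i hi n hn).1
  -- the integrals
  have hint : ∀ i ∈ range J, IntervalIntegrable (fun t : ℝ => F (k, pt (Sm z) t) *
      ‖ec (1 / 2 + δ + t * I) (sf x (BB * QA A z y Rs i))‖ ^ 2) volume (Xl X) X := by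
    intro i hi
    rw [mem_range] at hi
    apply Continuous.intervalIntegrable
    have c1 : Continuous fun t : ℝ => F (k, pt (Sm z) t) :=
      hF.comp (continuous_const.prodMk (EQ.pt_cont _))
    have c2 : Continuous fun t : ℝ =>
        ‖ec (1 / 2 + δ + t * I) (sf x (BB * QA A z y Rs i))‖ ^ 2 :=
      (EQ.ec_cont (fun n hn => hne i hi n (MV.sf_support _ _ hn)) δ).norm.pow 2
    exact c1.mul c2
  have hI : ∀ i ∈ range J, ∫ t in Xl X..X, F (k, pt (Sm z) t) *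
      ‖ec (1 / 2 + δ + t * I) (sf x (BB * QA A z y Rs i))‖ ^ 2 ≤
      V * (X * IF * (C * Real.exp (-(RB Rs i : ℝ))) + ε' * X * (C * Real.exp (-(RB Rs i : ℝ))) +
        ε' * X ^ ((9:ℝ) / 10)) := by
    intro i hi
    rw [mem_range] at hi
    have k1 := h1 (Xl X) hXl g3 k δ hδ (sf x (BB * QA A z y Rs i)) (MV.Cop_sf x (hcop i hi))
      ((MV.lc1_sf_le x _).trans (hlc i hi))
    rw [MV.nn_sf, ← hIF] at k1
    have k2 := hQ z J Rs y hz144 hy1 hRs1 hRs3 (fun i hi => (i3 i hi).2) δ hδ α hα0.le hαA i hi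
    rw [← hBB, ← hV] at k2
    obtain ⟨nq, hnq⟩ : ∃ nq : ℝ, nq = nn δ (BB * QA A z y Rs i) := ⟨_, rfl⟩
    have hnq0 : 0 ≤ nq := by rw [hnq]; exact MV.nn_nonneg _ _
    rw [← hnq] at k1 k2
    obtain ⟨b, hb⟩ : ∃ b : ℝ, b = C * Real.exp (-(RB Rs i : ℝ)) := ⟨_, rfl⟩
    rw [← hb] at k2 ⊢
    have k3 := (abs_le.1 k1).2
    have k4 : (X - Xl X) * IF * nq ≤ X * IF * nq :=
      mul_le_mul_of_nonneg_right (mul_le_mul_of_nonneg_right (by linarith) hIF0) hnq0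
    have k5 : X * IF * nq ≤ X * IF * (b * V) :=
      mul_le_mul_of_nonneg_left k2 (mul_nonneg hX0.le hIF0)
    have k6 : ε' * (X * nq + X ^ ((9:ℝ) / 10)) ≤ ε' * (X * (b * V) + X ^ ((9:ℝ) / 10) * V) := by
      apply mul_le_mul_of_nonneg_left _ hε'0.le
      have k7 : X * nq ≤ X * (b * V) := mul_le_mul_of_nonneg_left k2 hX0.le
      have k8 : X ^ ((9:ℝ) / 10) * 1 ≤ X ^ ((9:ℝ) / 10) * V :=
        mul_le_mul_of_nonneg_left hV1 (by positivity)
      linarith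
    have k9 : V * (X * IF * b + ε' * X * b + ε' * X ^ ((9:ℝ) / 10)) =
        X * IF * (b * V) + ε' * (X * (b * V) + X ^ ((9:ℝ) / 10) * V) := by ring
    rw [k9]
    linarith
  -- the pointwise estimate
  have hpt : ∀ t : ℝ, F (k, pt (Sm z) t) *
      (‖ec (1 / 2 + δ + ((t + x : ℝ) : ℂ) * I) BB‖ ^ 2 / V *
        (if ∀ i < J, (A:ℝ) * ‖ec (1 / 2 + δ + ((t + x : ℝ) : ℂ) * I) (xc (IB z y i))‖ ≤ RB Rs i
          then 0 else 1)) ≤
      (∑ i ∈ range J, F (k, pt (Sm z) t) *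
        ‖ec (1 / 2 + δ + t * I) (sf x (BB * QA A z y Rs i))‖ ^ 2) / V := by
    intro t
    have hs0 : ∀ i ∈ range J, 0 ≤ F (k, pt (Sm z) t) *
        ‖ec (1 / 2 + δ + t * I) (sf x (BB * QA A z y Rs i))‖ ^ 2 := fun i _ =>
      mul_nonneg (hF0 _) (by positivity)
    split_ifs with hg
    · rw [mul_zero, mul_zero]
      exact div_nonneg (sum_nonneg hs0) hV0.le
    · push Not at hg
      obtain ⟨i, hi, hgi⟩ := hg
      have m1 := qa_norm A z y Rs i _ hRs3 hgi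
      have m2 := single_le_sum hs0 (mem_range.2 hi)
      have m3 : ec (1 / 2 + δ + t * I) (sf x (BB * QA A z y Rs i)) =
          ec (1 / 2 + δ + ((t + x : ℝ) : ℂ) * I) BB *
            ec (1 / 2 + δ + ((t + x : ℝ) : ℂ) * I) (QA A z y Rs i) := by
        rw [MV.ec_sf _ _ (hne i hi), map_mul]
        have : (1 / 2 + (δ:ℂ) + t * I + x * I) = 1 / 2 + δ + ((t + x : ℝ) : ℂ) * I := by
          push_cast
          ring
        rw [this]
      rw [mul_one, ← mul_div_assoc]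
      apply div_le_div_of_nonneg_right _ hV0.le
      refine le_trans ?_ m2
      rw [m3, norm_mul, mul_pow]
      apply mul_le_mul_of_nonneg_left _ (hF0 _)
      exact le_mul_of_one_le_right (by positivity) m1
  -- integration
  have hRint : IntervalIntegrable (fun t : ℝ => (∑ i ∈ range J, F (k, pt (Sm z) t) *
        ‖ec (1 / 2 + δ + t * I) (sf x (BB * QA A z y Rs i))‖ ^ 2) / V) volume (Xl X) X := by
    have h := (IntervalIntegrable.sum (range J) hint).div_const V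
    simpa only [Finset.sum_apply] using h
  have hle : (∫ t in Xl X..X, F (k, pt (Sm z) t) *
      (‖ec (1 / 2 + δ + ((t + x : ℝ) : ℂ) * I) BB‖ ^ 2 / V *
        (if ∀ i < J, (A:ℝ) * ‖ec (1 / 2 + δ + ((t + x : ℝ) : ℂ) * I) (xc (IB z y i))‖ ≤ RB Rs i
          then (0:ℝ) else 1))) ≤
      ∫ t in Xl X..X, (∑ i ∈ range J, F (k, pt (Sm z) t) *
        ‖ec (1 / 2 + δ + t * I) (sf x (BB * QA A z y Rs i))‖ ^ 2) / V := by
    by_cases hii : IntervalIntegrable (fun t : ℝ => F (k, pt (Sm z) t) *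
      (‖ec (1 / 2 + δ + ((t + x : ℝ) : ℂ) * I) BB‖ ^ 2 / V *
        (if ∀ i < J, (A:ℝ) * ‖ec (1 / 2 + δ + ((t + x : ℝ) : ℂ) * I) (xc (IB z y i))‖ ≤ RB Rs i
          then (0:ℝ) else 1))) volume (Xl X) X
    · exact intervalIntegral.integral_mono_on g3 hii hRint (fun t _ => hpt t)
    · rw [intervalIntegral.integral_undef hii]
      apply intervalIntegral.integral_nonneg g3
      intro t _
      exact div_nonneg (sum_nonneg fun i _ => mul_nonneg (hF0 _) (by positivity)) hV0.le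
  have hfin : (∫ t in Xl X..X, (∑ i ∈ range J, F (k, pt (Sm z) t) *
        ‖ec (1 / 2 + δ + t * I) (sf x (BB * QA A z y Rs i))‖ ^ 2) / V) ≤ X * (e * IF + η) := ?_
  · refine le_trans (le_of_eq ?_) (hle.trans hfin)
    congr! 
  rw [intervalIntegral.integral_div, intervalIntegral.integral_finsetSum hint, div_le_iff₀ hV0]
  refine (sum_le_sum hI).trans ?_
  rw [← mul_sum, mul_comm _ V]
  apply mul_le_mul_of_nonneg_left _ hV0.le
  rw [sum_add_distrib, sum_add_distrib, ← mul_sum, ← mul_sum, ← mul_sum, sum_const, card_range,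
    nsmul_eq_mul]
  have hS : C * ∑ i ∈ range J, Real.exp (-(RB Rs i : ℝ)) ≤ e :=
    (mul_le_mul_of_nonneg_left (sumexp Rs J) hC).trans hCe
  have hJle : (J:ℝ) * X ^ ((9:ℝ) / 10) ≤ X :=
    (mul_le_mul_of_nonneg_right (J_le hy1 hX0 (fun i hi => (i3 i hi).1) i4)
      (by positivity)).trans g1
  have q1 : X * IF * (C * ∑ i ∈ range J, Real.exp (-(RB Rs i : ℝ))) ≤ X * IF * e :=
    mul_le_mul_of_nonneg_left hS (mul_nonneg hX0.le hIF0)
  have q2 : ε' * X * (C * ∑ i ∈ range J, Real.exp (-(RB Rs i : ℝ))) ≤ ε' * X * e :=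
    mul_le_mul_of_nonneg_left hS (mul_nonneg hε'0.le hX0.le)
  have q3 : (J:ℝ) * (ε' * X ^ ((9:ℝ) / 10)) ≤ ε' * X := by
    have := mul_le_mul_of_nonneg_left hJle hε'0.le
    linarith
  have q4 : ε' * X * e ≤ η / 2 * X := by
    have := mul_le_mul_of_nonneg_right hε'1 hX0.le
    linarith
  have q5 : ε' * X ≤ η / 2 * X := mul_le_mul_of_nonneg_right hε'2 hX0.le
  have q6 : ∑ i ∈ range J, C * Real.exp (-(RB Rs i : ℝ)) =
      C * ∑ i ∈ range J, Real.exp (-(RB Rs i : ℝ)) := (mul_sum _ _ _).symm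
  rw [q6]
  linarith

end Pool.Agent.V5helper15.HM.BADA3
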