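import Pool.Agent.N748.HM.Stm
import Pool.Agent.N748.GC.TWO

set_option autoImplicit false

/-!
# HM/FAR3: the two-point function of the weights at arbitrary distances (project HM of helper51)
-/

namespace Pool.Agent.V5helper15.HM.FAR3

open Finset Filter MeasureTheory MonoidAlgebra Topology Complex
open Pool.Agent.N748.GC Pool.Agent.N748.GC.TWO Pool.Agent.N748.HM

theorem t_FAR3 (hN : S_NNB3) (_hNL : S_NNL3) (hLEN : S_LEN3) : S_FAR3 := by
  have hEQ : S_EQ := EQ.main MV.main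
  intro α hα0 c hc e he
  obtain ⟨A, hαA⟩ : ∃ A : ℕ, α ≤ A := exists_nat_ge α
  obtain ⟨CN, RN, hCN, hN⟩ := hN c hc A
  have hle : 0 < Real.log (1 + e) := Real.log_pos (by linarith)
  obtain ⟨R0, hR0⟩ := ev_R (CN := CN) hle
  refine ⟨1000, max (max RN 1) (max A R0), ?_⟩
  intro z hz K _ _ F hF hF0 η hη
  have hz1000 : (1000:ℝ) ≤ z := by exact_mod_cast hz
  have hz144 : 144 ≤ z := le_trans (by norm_num) hz
  filter_upwards [hEQ (Sm z) (fun p hp => (mem_filter.1 hp).2) K F hF η hη, ev_Xl, ev_len,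
    eventually_ge_atTop (1:ℝ)] with X hX h1 h2 h3 Rs J yy hRs hSP δ hδ k x x'
  have hzy := hSP.zy
  have hJ := hSP.bJ
  have hblk := hSP.bl
  have hlen := hSP.len
  have hRN : RN ≤ Rs := ((le_max_left _ _).trans (le_max_left _ _)).trans hRs
  have hR1 : 1 ≤ Rs := ((le_max_right _ _).trans (le_max_left _ _)).trans hRs
  have hRA : A ≤ Rs := ((le_max_left _ _).trans (le_max_right _ _)).trans hRs
  have hRR : R0 ≤ Rs := ((le_max_right _ _).trans (le_max_right _ _)).trans hRs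
  have hyy : 1 ≤ yy := by linarith
  have hX0 : 0 < X := by linarith
  have hNN : 0 ≤ Real.exp (Real.log yy * (90 * ((Rs:ℝ) + 1))) := (Real.exp_pos _).le
  have hNM : Real.exp (Real.log yy * (90 * ((Rs:ℝ) + 1))) * Real.exp (Real.log yy * (90 * ((Rs:ℝ) + 1))) ≤
      (2 * (X + 1)) ^ ((1:ℝ) / 50) := by
    rw [← Real.exp_add]
    refine le_trans (le_of_eq ?_) hlen
    congr 1
    ring
  have hbα := (hLEN A z J Rs yy hz144 hyy hR1 hRA (fun i hi => (hblk i hi).1)).1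
    (fun _ => α) (fun _ => ⟨hα0.le, hαA⟩) 0 (Nat.zero_le _)
  have hneα : ∀ n ∈ (BP (fun _ => α) z yy 0 J Rs).coeff.support, n ≠ 0 := fun n hn => (hbα.1 n hn).1
  have hcl := len_mul hNN hNM hbα hbα x x'
  set D : PC := sf x (BP (fun _ => α) z yy 0 J Rs) * sf x' (BP (fun _ => α) z yy 0 J Rs) with hD
  set V := VB δ z yy 0 J with hV
  have hXl : 0 ≤ Xl X := by unfold Xl; positivity
  have h4 := (abs_le.1 (hX (Xl X) hXl h1 k δ hδ D (Cop_mono h2 hcl.1) (hcl.2.trans h2))).2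
  have hI0 : 0 ≤ ∫ w, F (k, w) ∂(HP (Sm z)) := integral_nonneg fun w => hF0 _
  set IF : ℝ := ∫ w, F (k, w) ∂(HP (Sm z)) with hIF
  have hnn : 0 ≤ nn δ D := MV.nn_nonneg δ D
  have hV0 : 0 ≤ V := VB_nonneg δ z yy 0 J
  -- the norm square
  have hnnD : Real.exp (-(2 * α ^ 2 * V)) * nn δ D ≤ (1 + e) * KX α z yy J δ (x - x') := by
    have k1 : nn δ D ≤ Real.exp ((∑ i ∈ range J, ∑ p ∈ IB z yy i,
        (α ^ 2 + α ^ 2 + 2 * α * α * Real.cos ((x' - x) * Real.log p)) * wd δ p) +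
        CN * Real.exp (-(2 * (Rs:ℝ)))) := by
      rw [hD, nn_shift δ x x' _ hneα]
      exact hN z J Rs yy hz144 hyy hRN hR1 (fun i hi => (hblk i hi).2) δ hδ (fun _ => α) (fun _ => α)
        (fun _ => ⟨hα0.le, hαA⟩) (fun _ => ⟨hα0.le, hαA⟩) (x' - x)
    have k2 : ∑ i ∈ range J, ∑ p ∈ IB z yy i,
        (α ^ 2 + α ^ 2 + 2 * α * α * Real.cos ((x' - x) * Real.log p)) * wd δ p =
        2 * α ^ 2 * V + 2 * α ^ 2 * ∑ i ∈ range J, ∑ p ∈ IB z yy i, Real.cos ((x - x') * Real.log p) * wd δ p := by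
      rw [hV]
      unfold VB
      rw [← range_eq_Ico, mul_sum, mul_sum, ← sum_add_distrib]
      refine sum_congr rfl fun i _ => ?_
      rw [mul_sum, mul_sum, ← sum_add_distrib]
      refine sum_congr rfl fun p _ => ?_
      have : Real.cos ((x' - x) * Real.log p) = Real.cos ((x - x') * Real.log p) := by
        rw [← Real.cos_neg]
        congr 1
        ring
      rw [this]
      ring
    rw [k2] at k1
    have k3 := hR0 Rs hRR
    have k4 : Real.exp (CN * Real.exp (-(2 * (Rs:ℝ)))) ≤ 1 + e := by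
      calc Real.exp (CN * Real.exp (-(2 * (Rs:ℝ)))) ≤ Real.exp (Real.log (1 + e)) := Real.exp_le_exp.2 k3
        _ = 1 + e := Real.exp_log (by linarith)
    refine (mul_le_mul_of_nonneg_left k1 (Real.exp_pos _).le).trans ?_
    have k5 : Real.exp (-(2 * α ^ 2 * V)) * Real.exp (2 * α ^ 2 * V +
        2 * α ^ 2 * ∑ i ∈ range J, ∑ p ∈ IB z yy i, Real.cos ((x - x') * Real.log p) * wd δ p +
        CN * Real.exp (-(2 * (Rs:ℝ)))) = Real.exp (CN * Real.exp (-(2 * (Rs:ℝ)))) * KX α z yy J δ (x - x') := by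
      unfold KX
      rw [← Real.exp_add, ← Real.exp_add]
      congr 1
      ring
    rw [k5]
    refine mul_le_mul_of_nonneg_right k4 ?_
    unfold KX
    exact (Real.exp_pos _).le
  set ρ := (1 + e) * KX α z yy J δ (x - x') with hρ
  have hρ0 : 0 ≤ ρ := by rw [hρ]; unfold KX; positivity
  -- the integral
  have h5 : ∫ t in Xl X..X, F (k, pt (Sm z) t) * (WP α z Rs yy J δ (t + x) * WP α z Rs yy J δ (t + x')) =
      Real.exp (-(2 * α ^ 2 * V)) * ∫ t in Xl X..X, F (k, pt (Sm z) t) * ‖ec (1 / 2 + δ + t * I) D‖ ^ 2 := by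
    rw [← intervalIntegral.integral_const_mul]
    refine intervalIntegral.integral_congr fun t _ => ?_
    have hx : (1 / 2 + (δ : ℂ) + ((t + x : ℝ) : ℂ) * I) = 1 / 2 + δ + t * I + x * I := by push_cast; ring
    have hx' : (1 / 2 + (δ : ℂ) + ((t + x' : ℝ) : ℂ) * I) = 1 / 2 + δ + t * I + x' * I := by push_cast; ring
    have e1 : Real.exp (-(2 * α ^ 2 * V)) = (Real.exp (α ^ 2 * V))⁻¹ * (Real.exp (α ^ 2 * V))⁻¹ := by
      rw [← Real.exp_neg, ← Real.exp_add]
      congr 1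
      ring
    show F (k, pt (Sm z) t) * (WP α z Rs yy J δ (t + x) * WP α z Rs yy J δ (t + x')) =
      Real.exp (-(2 * α ^ 2 * V)) * (F (k, pt (Sm z) t) * ‖ec (1 / 2 + δ + t * I) D‖ ^ 2)
    unfold WP
    rw [hx, hx', hD, map_mul, norm_mul, mul_pow, MV.ec_sf _ _ hneα, MV.ec_sf _ _ hneα, ← hV, e1]
    field_simp
  have hG1 : Real.exp (-(2 * α ^ 2 * V)) ≤ 1 := by
    rw [Real.exp_le_one_iff]
    have : 0 ≤ 2 * α ^ 2 * V := by positivity
    linarith
  have hG0 : 0 ≤ Real.exp (-(2 * α ^ 2 * V)) := (Real.exp_pos _).le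
  set G := Real.exp (-(2 * α ^ 2 * V)) with hG
  have h7 : ∫ t in Xl X..X, F (k, pt (Sm z) t) * ‖ec (1 / 2 + δ + t * I) D‖ ^ 2 ≤
      X * IF * nn δ D + η * (X * nn δ D + X ^ ((9:ℝ) / 10)) := by
    have : 0 ≤ Xl X * IF * nn δ D := by positivity
    linarith
  have h8 : X ^ ((9:ℝ) / 10) ≤ X := by
    conv_rhs => rw [← Real.rpow_one X]
    exact Real.rpow_le_rpow_of_exponent_le h3 (by norm_num)
  have h9 : 0 ≤ X ^ ((9:ℝ) / 10) := by positivity
  rw [h5]
  calc G * ∫ t in Xl X..X, F (k, pt (Sm z) t) * ‖ec (1 / 2 + δ + t * I) D‖ ^ 2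
      ≤ G * (X * IF * nn δ D + η * (X * nn δ D + X ^ ((9:ℝ) / 10))) := mul_le_mul_of_nonneg_left h7 hG0
    _ = X * (IF + η) * (G * nn δ D) + η * (G * X ^ ((9:ℝ) / 10)) := by ring
    _ ≤ X * (IF + η) * ρ + η * X := by
        refine add_le_add (mul_le_mul_of_nonneg_left hnnD (by positivity)) ?_
        refine mul_le_mul_of_nonneg_left ?_ hη.le
        exact (mul_le_of_le_one_left h9 hG1).trans h8
    _ = X * ((IF + η) * ρ + η) := by ring

end Pool.Agent.V5helper15.HM.FAR3
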