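import Pool.Agent.N748.HM.Stm
import Pool.Agent.N748.GC.LEN

set_option autoImplicit false

/-!
# HM/LEN3: lengths and sizes of the polynomials, arbitrary exponents

Port of `Pool.Agent.N748.GC.LEN` (project HM of helper51).
-/

namespace Pool.Agent.V5helper15.HM.LEN3

open Finset Filter MeasureTheory MonoidAlgebra Topology Complex Pool.Agent.N748.GC
  Pool.Agent.N748.GC.MV Pool.Agent.N748.GC.LEN Pool.Agent.N748.HM

lemma exp_nat_le {A Rs : ℕ} (hA : A ≤ Rs) {b : ℝ} (hb : 10 ≤ b) {n : ℕ} (hn : Rs ≤ n) :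
    Real.exp (A:ℝ) ≤ b ^ n := by
  have h0 : Real.exp 1 ≤ b := by
    have := Real.exp_one_lt_d9
    linarith
  have h1 : Real.exp (A:ℝ) = Real.exp 1 ^ A := by
    rw [← Real.exp_nat_mul]; simp
  rw [h1]
  calc Real.exp 1 ^ A ≤ b ^ A := pow_le_pow_left₀ (Real.exp_pos _).le h0 _
    _ ≤ b ^ n := pow_le_pow_right₀ (by linarith) (hA.trans hn)

lemma Q_NKcA {z : ℕ} {b : ℝ} (hb : 1 ≤ b) {x : PC} (hx : Q (Sm z) b x) (K : ℕ) {a A : ℝ}
    (h0 : 0 ≤ a) (h2 : a ≤ A) : Q (Sm z) (Real.exp A * b ^ K) (NKc K a x) := by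
  have hA0 : 0 ≤ A := h0.trans h2
  have hE1 : 1 ≤ Real.exp A := Real.one_le_exp hA0
  have hbK : ∀ k ∈ range (K + 1), b ^ k ≤ b ^ K := fun k hk =>
    pow_le_pow_right₀ hb (by have := mem_range.1 hk; omega)
  have hbK0 : 0 ≤ b ^ K := by positivity
  constructor
  · unfold NKc
    refine Cop_sum _ fun k hk => Cop_smul _ ?_
    refine Cop_mono ?_ (Q_pow Sm_prime (by linarith) hx k).1
    exact (hbK k hk).trans (le_mul_of_one_le_left hbK0 hE1)
  · unfold NKc
    refine (lc1_sum _ _).trans ?_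
    calc ∑ k ∈ range (K + 1), lc1 (((a ^ k / (k.factorial : ℝ) : ℝ) : ℂ) • x ^ k)
        ≤ ∑ k ∈ range (K + 1), a ^ k / (k.factorial : ℝ) * b ^ K := by
          refine sum_le_sum fun k hk => ?_
          refine (lc1_smul _ _).trans ?_
          rw [Complex.norm_real, Real.norm_of_nonneg (by positivity)]
          exact mul_le_mul_of_nonneg_left
            ((Q_pow Sm_prime (by linarith) hx k).2.trans (hbK k hk)) (by positivity)
      _ = (∑ k ∈ range (K + 1), a ^ k / (k.factorial : ℝ)) * b ^ K := by rw [sum_mul]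
      _ ≤ Real.exp A * b ^ K := mul_le_mul_of_nonneg_right
          ((Real.sum_le_exp_of_nonneg h0 (K + 1)).trans (Real.exp_le_exp.2 h2)) hbK0

/-- the factor of the block `i` -/
lemma Q_blockA {A z Rs : ℕ} {y : ℝ} {i : ℕ} (hR : 1 ≤ Rs) (hA : A ≤ Rs) (hb : 10 ≤ be y i) {a : ℝ}
    (h0 : 0 ≤ a) (h2 : a ≤ A) :
    Q (Sm z) (Real.exp (Real.log y * ((1 / 4) ^ i * (45 * ((Rs : ℝ) + i)))))
      (NKc (20 * RB Rs i) a (xc (IB z y i))) := by
  have hb1 : 1 ≤ be y i := by linarith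
  refine Q_mono ?_ (Q_NKcA hb1 (Q_xc z y i) (20 * RB Rs i) h0 h2)
  have e : Real.exp (Real.log y * ((1 / 4) ^ i * (45 * ((Rs : ℝ) + i)))) = be y i ^ (45 * (Rs + i)) := by
    rw [be_pow]; push_cast; ring_nf
  rw [e, show 45 * (Rs + i) = 5 * (Rs + i) + 20 * RB Rs i by unfold RB; ring, pow_add]
  exact mul_le_mul_of_nonneg_right (exp_nat_le hA hb (by omega)) (by positivity)

theorem t_LEN3 : S_LEN3 := by
  intro A z J Rs y hz hy hR hA hb
  have hly : 0 ≤ Real.log y := Real.log_nonneg hy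
  refine ⟨fun a ha j hj => ?_, fun i hi => ?_⟩
  · have h := Q_prod (P := Sm z) Sm_prime (Ico j J)
      (N := fun i => Real.exp (Real.log y * ((1 / 4) ^ i * (45 * ((Rs : ℝ) + i)))))
      (f := fun i => NKc (20 * RB Rs i) (a i) (xc (IB z y i)))
      (fun i _ => (Real.exp_pos _).le)
      (fun i hi => Q_blockA hR hA (hb i (mem_Ico.1 hi).2) (ha i).1 (ha i).2)
    have h2 := Q_mono (M := Real.exp (Real.log y * (90 * ((Rs:ℝ) + 1)))) (by
      rw [← Real.exp_sum, ← mul_sum, Real.exp_le_exp]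
      exact mul_le_mul_of_nonneg_left (geo_le (Nat.cast_nonneg _) j J) hly) h
    exact h2
  · have hbi := hb i hi
    have h := Q_pow (P := Sm z) Sm_prime (by linarith) (Q_xc z y i) (RB Rs i)
    have hRB : (1 : ℝ) ≤ RB Rs i := by
      have : 1 ≤ RB Rs i := by unfold RB; omega
      exact_mod_cast this
    have hle : be y i ^ RB Rs i ≤ Real.exp (Real.log y * (90 * ((Rs:ℝ) + 1))) := by
      rw [be_pow, Real.exp_le_exp]
      refine mul_le_mul_of_nonneg_left ?_ hly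
      have h1 := geo_le (R := (Rs : ℝ)) (Nat.cast_nonneg _) i (i + 1)
      rw [Nat.Ico_succ_singleton, sum_singleton] at h1
      refine le_trans ?_ h1
      refine mul_le_mul_of_nonneg_left ?_ (by positivity)
      unfold RB
      push_cast
      have : (0 : ℝ) ≤ Rs := Nat.cast_nonneg _
      have : (0 : ℝ) ≤ i := Nat.cast_nonneg _
      linarith
    have hQ := Q_mono hle h
    unfold QA
    refine ⟨Cop_smul _ hQ.1, (lc1_smul _ _).trans ?_⟩
    rw [Complex.norm_real, Real.norm_of_nonneg (by positivity)]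
    have hARB : (A:ℝ) ≤ RB Rs i := by
      have : A ≤ RB Rs i := by unfold RB; omega
      exact_mod_cast this
    have h1 : ((A:ℝ) / (RB Rs i : ℝ)) ^ (RB Rs i) ≤ 1 :=
      pow_le_one₀ (by positivity) (by rw [div_le_one (by linarith)]; exact hARB)
    calc ((A:ℝ) / (RB Rs i : ℝ)) ^ (RB Rs i) * lc1 (xc (IB z y i) ^ RB Rs i)
        ≤ 1 * lc1 (xc (IB z y i) ^ RB Rs i) := mul_le_mul_of_nonneg_right h1 (lc1_nonneg _)
      _ ≤ _ := by rw [one_mul]; exact hQ.2

end Pool.Agent.V5helper15.HM.LEN3
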