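import Pool.Agent.N748.HM.Stm
import Pool.Agent.N748.GC.TWO
import Pool.Agent.N748.GC.COS
import Pool.Agent.N748.GC.TAIL

set_option autoImplicit false

/-!
# HM/NEAR3: the two-point function on the good points at distances up to `1`

Port of `Pool.Agent.N748.GC.TWO` to arbitrary exponents (project HM of helper51).
-/

namespace Pool.Agent.V5helper15.HM

open Finset Filter MeasureTheory MonoidAlgebra Topology Complex
open Pool.Agent.N748.GC Pool.Agent.N748.GC.TWO Pool.Agent.N748.HM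

lemma ca_bdA {α A : ℝ} (h0 : 0 ≤ α) (h2 : α ≤ A) (j i : ℕ) : 0 ≤ ca α j i ∧ ca α j i ≤ A := by
  unfold ca
  split_ifs
  · exact ⟨h0, h2⟩
  · exact ⟨le_rfl, h0.trans h2⟩

/-- the mean square of the product -/
lemma nn_twoA {c CN : ℝ} {A R0 : ℕ} (hN : ∀ (z J Rs : ℕ) (y : ℝ), 144 ≤ z → 1 ≤ y → R0 ≤ Rs → 1 ≤ Rs →
      (∀ i < J, ∑ p ∈ IB z y i, 1 / (p:ℝ) ≤ c) → ∀ δ : ℝ, 0 ≤ δ → ∀ a b : ℕ → ℝ,
      (∀ i, 0 ≤ a i ∧ a i ≤ A) → (∀ i, 0 ≤ b i ∧ b i ≤ A) → ∀ h : ℝ,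
      nn δ (BP a z y 0 J Rs * sf h (BP b z y 0 J Rs)) ≤
        Real.exp ((∑ i ∈ range J, ∑ p ∈ IB z y i,
          (a i ^ 2 + b i ^ 2 + 2 * a i * b i * Real.cos (h * Real.log p)) * wd δ p) +
          CN * Real.exp (-(2 * (Rs:ℝ)))))
    {z J Rs : ℕ} {yy : ℝ} (hz : 144 ≤ z) (hyy : 1 ≤ yy) (hR0 : R0 ≤ Rs) (hR : 1 ≤ Rs)
    (hc : ∀ i < J, ∑ p ∈ IB z yy i, 1 / (p:ℝ) ≤ c) {δ : ℝ} (hδ : 0 ≤ δ) {α : ℝ} (hα0 : 0 ≤ α) (hα1 : α ≤ A)
    {j : ℕ} (hj : j ≤ J) (x y : ℝ)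
    (hne : ∀ n ∈ (BP (fun _ => α) z yy 0 J Rs).coeff.support, n ≠ 0) :
    nn δ (sf x (BP (ca α j) z yy 0 J Rs) * sf y (BP (fun _ => α) z yy 0 J Rs)) ≤
      Real.exp (2 * α ^ 2 * VB δ z yy 0 j + α ^ 2 * VB δ z yy j J +
        2 * α ^ 2 * (∑ i ∈ Ico 0 j, ∑ p ∈ IB z yy i, Real.cos (|y - x| * Real.log p) * wd δ p) +
        CN * Real.exp (-(2 * (Rs:ℝ)))) := by
  rw [nn_shift δ x y _ hne]
  refine (hN z J Rs yy hz hyy hR0 hR hc δ hδ (ca α j) (fun _ => α) (fun i => ca_bdA hα0 hα1 j i)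
    (fun _ => ⟨hα0, hα1⟩) (y - x)).trans ?_
  refine Real.exp_le_exp.2 (add_le_add_left (le_of_eq ?_) _)
  have hcos : ∀ p : ℕ, Real.cos ((y - x) * Real.log p) = Real.cos (|y - x| * Real.log p) := by
    intro p
    rcases abs_choice (y - x) with h | h
    · rw [h]
    · rw [h, neg_mul, Real.cos_neg]
  rw [range_eq_Ico, ← sum_Ico_consecutive _ (Nat.zero_le j) hj]
  have h1 : ∑ i ∈ Ico 0 j, ∑ p ∈ IB z yy i,
      (ca α j i ^ 2 + α ^ 2 + 2 * ca α j i * α * Real.cos ((y - x) * Real.log p)) * wd δ p =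
      2 * α ^ 2 * VB δ z yy 0 j +
        2 * α ^ 2 * (∑ i ∈ Ico 0 j, ∑ p ∈ IB z yy i, Real.cos (|y - x| * Real.log p) * wd δ p) := by
    unfold VB
    rw [mul_sum, mul_sum, ← sum_add_distrib]
    refine sum_congr rfl fun i hi => ?_
    rw [mul_sum, mul_sum, ← sum_add_distrib]
    refine sum_congr rfl fun p _ => ?_
    have : ca α j i = α := if_pos (mem_Ico.1 hi).2
    rw [this, hcos]
    ring
  have h2 : ∑ i ∈ Ico j J, ∑ p ∈ IB z yy i,
      (ca α j i ^ 2 + α ^ 2 + 2 * ca α j i * α * Real.cos ((y - x) * Real.log p)) * wd δ p =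
      α ^ 2 * VB δ z yy j J := by
    unfold VB
    rw [mul_sum]
    refine sum_congr rfl fun i hi => ?_
    rw [mul_sum]
    refine sum_congr rfl fun p _ => ?_
    have : ca α j i = 0 := if_neg (not_lt.2 (mem_Ico.1 hi).1)
    rw [this]
    ring
  rw [h1, h2]
  ring

/-! ### the pointwise bound -/

lemma WP_nonneg (α : ℝ) (z Rs : ℕ) (y : ℝ) (J : ℕ) (δ u : ℝ) : 0 ≤ WP α z Rs y J δ u := by
  unfold WP; positivity

lemma gP_nonneg (A : ℕ) (α B ε1 : ℝ) (z Rs : ℕ) (y : ℝ) (J : ℕ) (δ u : ℝ) :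
    0 ≤ gP A α B ε1 z Rs y J δ u := by
  unfold gP; split_ifs <;> norm_num

lemma gP_le (A : ℕ) (α B ε1 : ℝ) (z Rs : ℕ) (y : ℝ) (J : ℕ) (δ u : ℝ) :
    gP A α B ε1 z Rs y J δ u ≤ 1 := by
  unfold gP; split_ifs <;> norm_num

lemma pwA {A : ℕ} {α B ε1 : ℝ} {z Rs : ℕ} {yy : ℝ} {J : ℕ} {δ t x y Fv : ℝ} (hF : 0 ≤ Fv) {j : ℕ}
    (hj : j ≤ J) (hne : ∀ n ∈ (BP (fun _ => α) z yy 0 J Rs).coeff.support, n ≠ 0)
    (hne' : ∀ n ∈ (BP (ca α j) z yy 0 J Rs).coeff.support, n ≠ 0) {M : ℝ} (hM : 0 ≤ M)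
    (hbar : G2 α B ε1 z Rs yy J δ (t + x) →
      ‖ec (1 / 2 + δ + ((t + x : ℝ) : ℂ) * I) (BP (fun _ => α) z yy j J Rs)‖ ^ 2 ≤ M) :
    Fv * ((WP α z Rs yy J δ (t + x) * gP A α B ε1 z Rs yy J δ (t + x)) *
       (WP α z Rs yy J δ (t + y) * gP A α B ε1 z Rs yy J δ (t + y))) ≤
    Fv * (M * Real.exp (-(2 * α ^ 2 * VB δ z yy 0 J)) *
      ‖ec (1 / 2 + δ + t * I) (sf x (BP (ca α j) z yy 0 J Rs) *
        sf y (BP (fun _ => α) z yy 0 J Rs))‖ ^ 2) := by
  refine mul_le_mul_of_nonneg_left ?_ hF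
  set V := VB δ z yy 0 J with hV
  have hx : (1 / 2 + (δ : ℂ) + ((t + x : ℝ) : ℂ) * I) = 1 / 2 + δ + t * I + x * I := by push_cast; ring
  have hy : (1 / 2 + (δ : ℂ) + ((t + y : ℝ) : ℂ) * I) = 1 / 2 + δ + t * I + y * I := by push_cast; ring
  have h1 : WP α z Rs yy J δ (t + x) * gP A α B ε1 z Rs yy J δ (t + x) ≤
      ‖ec (1 / 2 + δ + t * I) (sf x (BP (ca α j) z yy 0 J Rs))‖ ^ 2 * M / Real.exp (α ^ 2 * V) := by
    by_cases hg : G1 A z Rs yy J δ (t + x) ∧ G2 α B ε1 z Rs yy J δ (t + x)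
    · have h2 : gP A α B ε1 z Rs yy J δ (t + x) = 1 := by unfold gP; rw [if_pos hg]
      rw [h2, mul_one]
      unfold WP
      rw [BP_split α z yy hj Rs, map_mul, norm_mul, mul_pow, MV.ec_sf _ _ hne', ← hx]
      refine div_le_div_of_nonneg_right ?_ (Real.exp_pos _).le
      exact mul_le_mul_of_nonneg_left (hbar hg.2) (by positivity)
    · have h2 : gP A α B ε1 z Rs yy J δ (t + x) = 0 := by unfold gP; rw [if_neg hg]
      rw [h2, mul_zero]
      positivity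
  have h3 : WP α z Rs yy J δ (t + y) * gP A α B ε1 z Rs yy J δ (t + y) ≤
      ‖ec (1 / 2 + δ + t * I) (sf y (BP (fun _ => α) z yy 0 J Rs))‖ ^ 2 / Real.exp (α ^ 2 * V) := by
    refine (mul_le_of_le_one_right (WP_nonneg _ _ _ _ _ _ _) (gP_le _ _ _ _ _ _ _ _ _ _)).trans ?_
    unfold WP
    rw [MV.ec_sf _ _ hne, ← hy]
  refine (mul_le_mul h1 h3 (mul_nonneg (WP_nonneg _ _ _ _ _ _ _) (gP_nonneg _ _ _ _ _ _ _ _ _ _))
    (div_nonneg (mul_nonneg (sq_nonneg _) hM) (Real.exp_pos _).le)).trans (le_of_eq ?_)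
  rw [map_mul, norm_mul, mul_pow, show -(2 * α ^ 2 * V) = -(α ^ 2 * V) + -(α ^ 2 * V) by ring, Real.exp_add,
    Real.exp_neg]
  exact alg _ _ _ (Real.exp_pos _)

lemma ev_logA (M : ℝ) (hM : 0 < M) (κ : ℝ) : ∀ᶠ X : ℝ in atTop, M * Real.log X ^ κ ≤ X ^ ((1:ℝ) / 10) := by
  have h1 := isLittleO_log_rpow_rpow_atTop κ (show (0:ℝ) < 1 / 10 by norm_num)
  have h2 := h1.def (show (0:ℝ) < 1 / M by positivity)
  filter_upwards [h2, eventually_ge_atTop (1:ℝ)] with X hX hX1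
  have hl : 0 ≤ Real.log X := Real.log_nonneg hX1
  rw [Real.norm_of_nonneg (Real.rpow_nonneg hl _), Real.norm_of_nonneg (by positivity)] at hX
  calc M * Real.log X ^ κ ≤ M * (1 / M * X ^ ((1:ℝ) / 10)) := mul_le_mul_of_nonneg_left hX hM.le
    _ = X ^ ((1:ℝ) / 10) := by field_simp

lemma mul_sq_le {α A S b : ℝ} (hα : α ^ 2 ≤ A ^ 2) (hS : S ≤ b) (hb : 0 ≤ b) :
    2 * α ^ 2 * S ≤ 2 * A ^ 2 * b := by
  have h0 : 0 ≤ α ^ 2 := sq_nonneg α
  nlinarith [mul_le_mul_of_nonneg_left hS h0, mul_le_mul_of_nonneg_right hα hb]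

theorem t_NEAR3 (hN : S_NNB3) (hLEN : S_LEN3) : S_NEAR3 := by
  have hEQ : S_EQ := EQ.main MV.main
  intro A α hα0 hαA ε1 hε1 hε1' c hc B hB
  obtain ⟨CN, RN, hCN, hN⟩ := hN c hc A
  obtain ⟨Cc, hCc, hC⟩ := COS.cos
  obtain ⟨Ct, hCt, hT⟩ := TAIL.main COS.mer
  obtain ⟨Cm, hCm, hM⟩ := COS.mer
  have hA0 : (0:ℝ) ≤ A := Nat.cast_nonneg _
  have hα2 : α ^ 2 ≤ (A:ℝ) ^ 2 := pow_le_pow_left₀ hα0.le hαA 2
  have hl16 : 0 < Real.log 16 := Real.log_pos (by norm_num)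
  have hl4 : 0 < Real.log 4 := Real.log_pos (by norm_num)
  have hl416 : Real.log 4 ≤ Real.log 16 := Real.log_le_log (by norm_num) (by norm_num)
  set E : ℝ := 2 * (A:ℝ) ^ 2 * (Cc + Ct + Real.log 16) with hE
  have hE0 : 0 ≤ E := by positivity
  set C : ℝ := B * Real.exp ((α ^ 2 + ε1) * Cm + E + CN) with hCdef
  have hC0 : 0 < C := by positivity
  have hC1 : 1 ≤ C := by
    rw [hCdef]
    refine one_le_mul_of_one_le_of_one_le hB (Real.one_le_exp (by positivity))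
  refine ⟨C, hC0.le, 1000, max (max RN 1) A, ?_⟩
  intro z hz
  have hz1000 : (1000:ℝ) ≤ z := by exact_mod_cast hz
  have hz144 : 144 ≤ z := le_trans (by norm_num) hz
  have hL1 : 1 < Real.log z := by
    rw [Real.lt_log_iff_exp_lt (by linarith)]
    linarith [Real.exp_one_lt_d9]
  set L : ℝ := Real.log z with hL
  have hL0 : 0 < L := by linarith
  have hζ0 : 0 < α ^ 2 + ε1 := by positivity
  refine ⟨1 / (16 * L), by positivity, ?_⟩
  intro K _ _ F hF hF0 η hη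
  filter_upwards [core hEQ z K F hF hF0 η hη,
    ev_logA (B * Real.exp ((2 * α ^ 2 + ε1) * Cm)) (by positivity) (2 * α ^ 2 + ε1),
    eventually_ge_atTop (3:ℝ)] with X hcore hX2 hX3 Rs J yy hRs hSP δ hδ hδu hδX k x y hxy hxy1
  have hzy := hSP.zy
  have hJ := hSP.bJ
  have hblk := hSP.bl
  have hlen := hSP.len
  have hRN : RN ≤ Rs := ((le_max_left _ _).trans (le_max_left _ _)).trans hRs
  have hR1 : 1 ≤ Rs := ((le_max_right _ _).trans (le_max_left _ _)).trans hRs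
  have hRA : A ≤ Rs := (le_max_right _ _).trans hRs
  have hlX : 1 < Real.log X := by
    rw [Real.lt_log_iff_exp_lt (by linarith)]
    linarith [Real.exp_one_lt_d9]
  have hCNR : CN * Real.exp (-(2 * (Rs:ℝ))) ≤ CN := by
    refine mul_le_of_le_one_right hCN (Real.exp_le_one_iff.2 ?_)
    have : (0:ℝ) ≤ Rs := Nat.cast_nonneg _
    linarith
  have hδ16 : 16 * L ≤ 1 / δ := by
    have h1 : δ ≤ 1 / (16 * L) := hδu
    rw [le_div_iff₀ (by positivity)] at h1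
    rw [le_div_iff₀ hδ]
    linarith
  have hδ1 : δ ≤ 1 := by
    have h1 : 1 ≤ 1 / δ := by linarith
    rw [le_div_iff₀ hδ] at h1
    linarith
  have hyy : 1 ≤ yy := by linarith
  have hX10 : 1 ≤ X ^ ((1:ℝ) / 10) := Real.one_le_rpow (by linarith) (by norm_num)
  have hNN : 0 ≤ Real.exp (Real.log yy * (90 * ((Rs:ℝ) + 1))) := (Real.exp_pos _).le
  have hNM : Real.exp (Real.log yy * (90 * ((Rs:ℝ) + 1))) * Real.exp (Real.log yy * (90 * ((Rs:ℝ) + 1))) ≤
      (2 * (X + 1)) ^ ((1:ℝ) / 50) := by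
    rw [← Real.exp_add]
    refine le_trans (le_of_eq ?_) hlen
    congr 1
    ring
  have hLE := (hLEN A z J Rs yy hz144 hyy hR1 hRA (fun i hi => (hblk i hi).1)).1
  have hbα := hLE (fun _ => α) (fun _ => ⟨hα0.le, hαA⟩) 0 (Nat.zero_le _)
  have hneα : ∀ n ∈ (BP (fun _ => α) z yy 0 J Rs).coeff.support, n ≠ 0 := fun n hn => (hbα.1 n hn).1
  have hca := fun j => hLE (ca α j) (ca_bdA hα0.le hαA j) 0 (Nat.zero_le _)
  have hneca : ∀ j, ∀ n ∈ (BP (ca α j) z yy 0 J Rs).coeff.support, n ≠ 0 :=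
    fun j n hn => ((hca j).1 n hn).1
  have hh0 : 0 < |y - x| := abs_pos.2 (sub_ne_zero.2 (Ne.symm hxy))
  have hh1 : |y - x| ≤ 1 := by rw [abs_sub_comm]; exact hxy1
  set m : ℝ := max |x - y| δ with hm
  have hm' : m = max |y - x| δ := by rw [hm, abs_sub_comm]
  have hm0 : 0 < m := lt_of_lt_of_le hδ (le_max_right _ _)
  have hm1 : m ≤ 1 := max_le (by rw [abs_sub_comm]; exact hh1) hδ1
  have hmr : 1 ≤ m ^ (-(α ^ 2 + ε1)) :=
    Real.one_le_rpow_of_pos_of_le_one_of_nonpos hm0 hm1 (by linarith)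
  -- the frame
  have fin : ∀ j ≤ J, ∀ M : ℝ, 0 ≤ M → (∀ t : ℝ, G2 α B ε1 z Rs yy J δ (t + x) →
      ‖ec (1 / 2 + δ + ((t + x : ℝ) : ℂ) * I) (BP (fun _ => α) z yy j J Rs)‖ ^ 2 ≤ M) →
      M ≤ X ^ ((1:ℝ) / 10) →
      M * Real.exp (-(α ^ 2 * VB δ z yy j J) +
        2 * α ^ 2 * (∑ i ∈ Ico 0 j, ∑ p ∈ IB z yy i, Real.cos (|y - x| * Real.log p) * wd δ p) +
        CN * Real.exp (-(2 * (Rs:ℝ)))) ≤ C * m ^ (-(α ^ 2 + ε1)) →
      ∫ t in Xl X..X, F (k, pt (Sm z) t) *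
      ((WP α z Rs yy J δ (t + x) * gP A α B ε1 z Rs yy J δ (t + x)) *
       (WP α z Rs yy J δ (t + y) * gP A α B ε1 z Rs yy J δ (t + y))) ≤
      X * (((∫ w, F (k, w) ∂(HP (Sm z))) + η) * (C * m ^ (-(α ^ 2 + ε1)))) := by
    intro j hj M hM0 hbar hMX hρ
    have hV0 := VB_nonneg δ z yy 0 J
    have hcl := len_mul hNN hNM (hca j) hbα x y
    refine hcore δ hδ.le k _ hcl.1 hcl.2 (M * Real.exp (-(2 * α ^ 2 * VB δ z yy 0 J)))
      (C * m ^ (-(α ^ 2 + ε1))) (by positivity) ?_ ?_ (one_le_mul_of_one_le_of_one_le hC1 hmr) _ ?_ ?_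
    · refine (mul_le_of_le_one_right hM0 (Real.exp_le_one_iff.2 ?_)).trans hMX
      have : 0 ≤ 2 * α ^ 2 * VB δ z yy 0 J := by positivity
      linarith
    · refine le_trans ?_ hρ
      have h1 := nn_twoA hN hz144 hyy hRN hR1 (fun i hi => (hblk i hi).2) hδ.le hα0.le hαA hj x y hneα
      rw [mul_assoc]
      refine mul_le_mul_of_nonneg_left ?_ hM0
      refine (mul_le_mul_of_nonneg_left h1 (Real.exp_pos _).le).trans (le_of_eq ?_)
      rw [← Real.exp_add, VB_add δ z yy hj]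
      congr 1
      ring
    · intro t
      exact mul_nonneg (hF0 _) (mul_nonneg (mul_nonneg (WP_nonneg _ _ _ _ _ _ _) (gP_nonneg _ _ _ _ _ _ _ _ _ _))
        (mul_nonneg (WP_nonneg _ _ _ _ _ _ _) (gP_nonneg _ _ _ _ _ _ _ _ _ _)))
    · intro t
      exact pwA (hF0 _) hj hneα (hneca j) hM0 (hbar t)
  by_cases hcase : 1 / 16 ≤ |y - x| * L
  · -- without barrier
    have hBJ : BP (fun _ => α) z yy J J Rs = 1 := by
      unfold BP; rw [Ico_self, prod_empty]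
    have hVJ : VB δ z yy J J = 0 := by
      unfold VB; rw [Ico_self, sum_empty]
    refine fin J le_rfl 1 zero_le_one ?_ hX10 ?_
    · intro t _
      rw [hBJ, map_one, norm_one, one_pow]
    · rw [hVJ, mul_zero, neg_zero, zero_add, one_mul,
        sum_low hz144 hyy (fun p => Real.cos (|y - x| * Real.log p) * wd δ p) (Nat.zero_le _) hJ, be_zero hyy]
      obtain ⟨hC1', hC2'⟩ := hC z δ yy |y - x| (by omega) hδ.le hzy hh0 hh1
      rw [← hL] at hC1' hC2'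
      have hS : ∑ p ∈ (Icc z ⌊yy⌋₊).filter Nat.Prime, Real.cos (|y - x| * Real.log p) * wd δ p ≤
          Cc + Ct + Real.log 16 := by
        rcases le_total (|y - x| * L) 1 with h1 | h1
        · have h3 := hC2' h1
          have h4 : Real.log (1 / (|y - x| * L)) ≤ Real.log 16 := by
            refine Real.log_le_log (by positivity) ?_
            rw [div_le_iff₀ (by positivity)]
            linarith
          linarith
        · have h3 := (hC1' h1).trans (div_le_self hCc.le h1)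
          linarith
      have h5 := mul_sq_le hα2 hS (by positivity)
      refine le_trans (Real.exp_le_exp.2 (?_ : _ ≤ (α ^ 2 + ε1) * Cm + E + CN)) ?_
      · have : 0 ≤ (α ^ 2 + ε1) * Cm := by positivity
        linarith
      · refine le_trans (le_mul_of_one_le_left (Real.exp_pos _).le hB) ?_
        rw [← hCdef]
        exact le_mul_of_one_le_right hC0.le hmr
  · -- with the barrier
    have hlt := not_le.1 hcase
    have hhL0 : 0 < |y - x| * L := by positivity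
    have hU16 : 16 * L ≤ min (1 / |y - x|) (1 / δ) := by
      refine le_min ?_ hδ16
      rw [le_div_iff₀ hh0]
      linarith
    obtain ⟨j, hjJ, hzj, hjU, hjl⟩ := exists_j hz144 hL1.le hyy hzy hJ hU16
    have hcos := cos_high hCc hCt hC hT hz144 hyy hh0 hh1 hδ hzj hjl
    have hv := VB_le hCm hM hz144 hL1.le hyy hδ.le hjJ.le hJ hzj
    have hv0 := VB_nonneg δ z yy j J
    rw [← hL] at hv
    set v := VB δ z yy j J with hvdef
    have hlzj : L ≤ Real.log (be yy j) := Real.log_le_log (by linarith) hzj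
    have hlb0 : 0 < Real.log (be yy j) := by linarith
    have hu1 : 1 ≤ Real.log (be yy j) / L := by
      rw [le_div_iff₀ hL0]; linarith
    have hu2 : Real.log (be yy j) / L ≤ Real.log X := by
      refine (div_le_self (by linarith) hL1.le).trans ?_
      exact hjU.trans ((min_le_right _ _).trans hδX)
    have hu3 : Real.log (be yy j) / L ≤ 1 / m := by
      refine (div_le_self (by linarith) hL1.le).trans (hjU.trans ?_)
      rw [hm']
      rcases le_total |y - x| δ with h | h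
      · rw [max_eq_right h]; exact min_le_right _ _
      · rw [max_eq_left h]; exact min_le_left _ _
    have hζ2 : 0 < 2 * α ^ 2 + ε1 := by positivity
    refine fin j hjJ.le (B * Real.exp ((2 * α ^ 2 + ε1) * v)) (by positivity) ?_ ?_ ?_
    · intro t hg
      refine hg j hjJ hzj ?_
      calc δ * Real.log (be yy j) ≤ δ * (1 / δ) :=
            mul_le_mul_of_nonneg_left (hjU.trans (min_le_right _ _)) hδ.le
        _ = 1 := by field_simp
    · refine le_trans ?_ hX2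
      rw [mul_assoc]
      refine mul_le_mul_of_nonneg_left ?_ (by linarith)
      have h1 : (2 * α ^ 2 + ε1) * v ≤ (2 * α ^ 2 + ε1) * Cm +
          Real.log (Real.log (be yy j) / L) * (2 * α ^ 2 + ε1) := by
        have := mul_le_mul_of_nonneg_left hv hζ2.le
        linarith
      refine (Real.exp_le_exp.2 h1).trans ?_
      rw [Real.exp_add]
      refine mul_le_mul_of_nonneg_left ?_ (Real.exp_pos _).le
      rw [← Real.rpow_def_of_pos (by linarith)]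
      exact Real.rpow_le_rpow (by linarith) hu2 hζ2.le
    · rw [mul_assoc, ← Real.exp_add]
      have h1 : Real.log (Real.log (be yy j) / L) ≤ Real.log (1 / m) :=
        Real.log_le_log (by linarith) hu3
      have h2 : m ^ (-(α ^ 2 + ε1)) = Real.exp ((α ^ 2 + ε1) * Real.log (1 / m)) := by
        rw [Real.rpow_def_of_pos hm0, one_div, Real.log_inv]
        congr 1
        ring
      have hcos' : ∑ i ∈ Ico 0 j, ∑ p ∈ IB z yy i, Real.cos (|y - x| * Real.log p) * wd δ p ≤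
          Cc + Ct + Real.log 16 := by linarith
      have h3 := mul_sq_le hα2 hcos' (by positivity)
      have h4 : (α ^ 2 + ε1) * v ≤ (α ^ 2 + ε1) * Real.log (1 / m) + (α ^ 2 + ε1) * Cm := by
        have h5 := mul_le_mul_of_nonneg_left (hv.trans (add_le_add_left h1 Cm)) hζ0.le
        linarith
      rw [h2, hCdef, mul_assoc B, ← Real.exp_add]
      refine mul_le_mul_of_nonneg_left (Real.exp_le_exp.2 ?_) (by linarith)
      linarith

end Pool.Agent.V5helper15.HM
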