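import Pool.Agent.N748.HM.Stm
import Pool.Agent.N748.GC.NNQ

set_option autoImplicit false

/-!
# HM/NNQ3: the mean square with the detecting polynomial, arbitrary exponents

Port of `Pool.Agent.N748.GC.NNQ` (project HM of helper51).
-/

namespace Pool.Agent.V5helper15.HM.NNQ3

open Finset MonoidAlgebra Complex
open Pool.Agent.N748.GC Pool.Agent.N748.GC.NNQ Pool.Agent.N748.HM

/-- moments of the sum over a block -/
lemma nn_pow_le (δ : ℝ) {I : Finset ℕ} (hI : ∀ p ∈ I, p.Prime) (m : ℕ) :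
    nn δ ((xc I) ^ m) ≤ m.factorial * (∑ p ∈ I, wd δ p) ^ m := by
  have h4 := BLK.KL δ (fun _ => (1 : ℂ)) I hI m
  have h5 : ∑ p ∈ I, ‖(1 : ℂ)‖ ^ 2 * wd δ p = ∑ p ∈ I, wd δ p := by
    refine Finset.sum_congr rfl fun p _ => ?_
    rw [norm_one, one_pow, one_mul]
  rw [h5] at h4
  exact h4

/-- the mean square of a truncated exponential over a block -/
lemma nn_NKc_le (δ : ℝ) {I : Finset ℕ} (hI : ∀ p ∈ I, p.Prime) (K : ℕ) {a : ℝ} (_ha : 0 ≤ a) :
    nn δ (NKc K a (xc I)) ≤ Real.exp (a ^ 2 * ∑ p ∈ I, wd δ p) := by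
  have hv0 : 0 ≤ ∑ p ∈ I, wd δ p := Finset.sum_nonneg fun p _ => BLK.wd_nonneg δ p
  have e1 : nn δ (NKc K a (xc I)) =
      ∑ k ∈ range (K + 1), (a ^ k / (k.factorial : ℝ)) ^ 2 * nn δ ((xc I) ^ k) := by
    unfold NKc
    rw [BLK.nn_sum δ (fun n => ArithmeticFunction.cardFactors n)]
    · refine Finset.sum_congr rfl fun k _ => ?_
      rw [BLK.nn_smul, Complex.norm_real, Real.norm_eq_abs, sq_abs]
    · intro k _
      refine BLK.Su.smul ?_ _
      exact (BLK.Su_Om_pow (BLK.Su_Om_sum hI fun _ => 1) k).mono fun n hn => hn.2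
  rw [e1]
  refine le_trans ?_ (Real.sum_le_exp_of_nonneg (x := a ^ 2 * ∑ p ∈ I, wd δ p) (by positivity) (K + 1))
  refine Finset.sum_le_sum fun k _ => ?_
  have hk0 : (0 : ℝ) < (k.factorial : ℝ) := by exact_mod_cast Nat.factorial_pos k
  calc (a ^ k / (k.factorial : ℝ)) ^ 2 * nn δ ((xc I) ^ k)
      ≤ (a ^ k / (k.factorial : ℝ)) ^ 2 * (k.factorial * (∑ p ∈ I, wd δ p) ^ k) :=
        mul_le_mul_of_nonneg_left (nn_pow_le δ hI k) (sq_nonneg _)
    _ = (a ^ 2 * ∑ p ∈ I, wd δ p) ^ k / (k.factorial : ℝ) := by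
        rw [mul_pow, ← pow_mul, mul_comm 2 k, pow_mul]
        field_simp

/-- The block with the detecting polynomial. -/
lemma blockQA {c δ A : ℝ} (hc : 1 ≤ c) (hδ : 0 ≤ δ) {I : Finset ℕ} (hI : ∀ p ∈ I, p.Prime)
    (hIc : A ^ 2 * ∑ p ∈ I, 1 / (p : ℝ) ≤ c) {R : ℕ} (hR : 2 * c * Real.exp 1 ≤ R) {a : ℝ} (ha : 0 ≤ a)
    (ha1 : a ≤ A) (K : ℕ) :
    nn δ (NKc K a (xc I) * ((((A / (R : ℝ)) ^ R : ℝ) : ℂ) • (xc I) ^ R)) ≤
      (Real.exp (8 * c) + 1) ^ 2 * Real.exp (-(R : ℝ)) := by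
  have hR0 : (0 : ℝ) < R := lt_of_lt_of_le (by positivity) hR
  have hA0 : 0 ≤ A := ha.trans ha1
  set x : PC := xc I with hx
  set r : ℝ := (A / (R : ℝ)) ^ R with hr
  set r1 : ℝ := (1 / (R : ℝ)) ^ R with hr1
  have hr0 : 0 ≤ r := by positivity
  have hr10 : 0 < r1 := by positivity
  have hrr : r = A ^ R * r1 := by rw [hr, hr1, ← mul_pow, mul_one_div]
  have e1 : NKc K a x * ((r : ℂ) • x ^ R) =
      ∑ k ∈ range (K + 1), (((a ^ k / (k.factorial : ℝ)) * r : ℝ) : ℂ) • x ^ (k + R) := by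
    unfold NKc
    rw [Finset.sum_mul]
    refine Finset.sum_congr rfl fun k _ => ?_
    rw [smul_mul_smul_comm, pow_add]
    push_cast
    rfl
  have hv : A ^ 2 * ∑ p ∈ I, wd δ p ≤ c := by
    refine le_trans (mul_le_mul_of_nonneg_left (Finset.sum_le_sum fun p hp => ?_) (sq_nonneg A)) hIc
    exact wd_le hδ (hI p hp)
  have hv0 : 0 ≤ ∑ p ∈ I, wd δ p := Finset.sum_nonneg fun p _ => BLK.wd_nonneg δ p
  have hnn : ∀ m : ℕ, (A ^ 2) ^ m * nn δ (x ^ m) ≤ m.factorial * c ^ m := by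
    intro m
    calc (A ^ 2) ^ m * nn δ (x ^ m) ≤ (A ^ 2) ^ m * (m.factorial * (∑ p ∈ I, wd δ p) ^ m) :=
          mul_le_mul_of_nonneg_left (nn_pow_le δ hI m) (by positivity)
      _ = m.factorial * (A ^ 2 * ∑ p ∈ I, wd δ p) ^ m := by rw [mul_pow (A ^ 2)]; ring
      _ ≤ _ := mul_le_mul_of_nonneg_left (pow_le_pow_left₀ (by positivity) hv m) (by positivity)
  set S : ℝ := Real.sqrt ((2 * c) ^ R * R.factorial) with hS
  have hS2 : S ^ 2 = (2 * c) ^ R * R.factorial := Real.sq_sqrt (by positivity)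
  have hS0 : 0 ≤ S := Real.sqrt_nonneg _
  have hterm : ∀ k ∈ range (K + 1),
      Real.sqrt (nn δ ((((a ^ k / (k.factorial : ℝ)) * r : ℝ) : ℂ) • x ^ (k + R))) ≤
        r1 * S * (((8 * c) ^ k / (k.factorial : ℝ) + (1 / 4) ^ k) / 2) := by
    intro k _
    have hk0 : (0 : ℝ) < (k.factorial : ℝ) := by exact_mod_cast Nat.factorial_pos k
    rw [Real.sqrt_le_left (by positivity), BLK.nn_smul, Complex.norm_real, Real.norm_eq_abs, sq_abs]
    have hfac : ((k + R).factorial : ℝ) ≤ 2 ^ (k + R) * k.factorial * R.factorial := by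
      have h1 := Nat.add_choose_mul_factorial_mul_factorial k R
      have h2 : (k + R).choose R ≤ 2 ^ (k + R) := Nat.choose_le_two_pow _ _
      have h3 : (k + R).factorial ≤ 2 ^ (k + R) * k.factorial * R.factorial := by
        rw [← h1]
        exact Nat.mul_le_mul_right _ (Nat.mul_le_mul_right _ h2)
      exact_mod_cast h3
    set A1 : ℝ := (8 * c) ^ k / (k.factorial : ℝ) with hA
    set B : ℝ := (1 / 4 : ℝ) ^ k with hB
    have hAB : A1 * B ≤ ((A1 + B) / 2) ^ 2 := by nlinarith [sq_nonneg (A1 - B)]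
    have hABe : A1 * B = (2 * c) ^ k / (k.factorial : ℝ) := by
      rw [hA, hB, div_mul_eq_mul_div, ← mul_pow]
      congr 2
      ring
    have ha2 : (a ^ k) ^ 2 ≤ (A ^ k) ^ 2 := by
      have : a ^ k ≤ A ^ k := pow_le_pow_left₀ ha ha1 k
      exact pow_le_pow_left₀ (by positivity) this 2
    have hnx := BLK.nn_nonneg δ (x ^ (k + R))
    calc (a ^ k / (k.factorial : ℝ) * r) ^ 2 * nn δ (x ^ (k + R))
        = (a ^ k) ^ 2 * ((r / k.factorial) ^ 2 * nn δ (x ^ (k + R))) := by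
          field_simp
      _ ≤ (A ^ k) ^ 2 * ((r / k.factorial) ^ 2 * nn δ (x ^ (k + R))) :=
          mul_le_mul_of_nonneg_right ha2 (mul_nonneg (sq_nonneg _) hnx)
      _ = (r1 / k.factorial) ^ 2 * ((A ^ 2) ^ (k + R) * nn δ (x ^ (k + R))) := by
          rw [hrr]
          have : (A ^ 2) ^ (k + R) = (A ^ k) ^ 2 * (A ^ R) ^ 2 := by
            rw [← pow_mul, ← pow_mul, ← pow_mul, ← pow_add]
            congr 1
            ring
          rw [this]
          ring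
      _ ≤ (r1 / k.factorial) ^ 2 * ((k + R).factorial * c ^ (k + R)) :=
          mul_le_mul_of_nonneg_left (hnn _) (by positivity)
      _ ≤ (r1 / k.factorial) ^ 2 * (2 ^ (k + R) * k.factorial * R.factorial * c ^ (k + R)) := by
          gcongr
      _ = r1 ^ 2 * ((2 * c) ^ R * R.factorial) * ((2 * c) ^ k / (k.factorial : ℝ)) := by
          rw [mul_pow, mul_pow, pow_add, pow_add]
          field_simp
      _ = r1 ^ 2 * S ^ 2 * (A1 * B) := by rw [hS2, hABe]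
      _ ≤ r1 ^ 2 * S ^ 2 * ((A1 + B) / 2) ^ 2 := mul_le_mul_of_nonneg_left hAB (by positivity)
      _ = _ := by ring
  have hsum : Real.sqrt (nn δ (NKc K a x * ((r : ℂ) • x ^ R))) ≤ r1 * S * (Real.exp (8 * c) + 1) := by
    rw [e1]
    refine (NN.sqrt_nn_sum δ _ _).trans ((Finset.sum_le_sum hterm).trans ?_)
    rw [← Finset.mul_sum]
    refine mul_le_mul_of_nonneg_left ?_ (by positivity)
    rw [← Finset.sum_div, Finset.sum_add_distrib]
    have h1 := Real.sum_le_exp_of_nonneg (x := 8 * c) (by positivity) (K + 1)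
    have h2 : ∑ k ∈ range (K + 1), (1 / 4 : ℝ) ^ k ≤ 2 := by
      have h3 : Summable fun k : ℕ => (1 / 4 : ℝ) ^ k :=
        summable_geometric_of_lt_one (by norm_num) (by norm_num)
      refine (h3.sum_le_tsum _ fun k _ => by positivity).trans ?_
      rw [tsum_geometric_of_lt_one (by norm_num) (by norm_num)]
      norm_num
    have h3 := Real.exp_pos (8 * c)
    linarith
  have hsq : nn δ (NKc K a x * ((r : ℂ) • x ^ R)) ≤ (r1 * S * (Real.exp (8 * c) + 1)) ^ 2 := by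
    have h1 := Real.sq_sqrt (BLK.nn_nonneg δ (NKc K a x * ((r : ℂ) • x ^ R)))
    rw [← h1]
    exact pow_le_pow_left₀ (Real.sqrt_nonneg _) hsum 2
  refine hsq.trans ?_
  have hfin : r1 ^ 2 * ((2 * c) ^ R * R.factorial) ≤ Real.exp (-(R : ℝ)) := by
    have h1 : (R.factorial : ℝ) ≤ (R : ℝ) ^ R := by exact_mod_cast Nat.factorial_le_pow R
    have h2 : 2 * c / R ≤ Real.exp (-1) := by
      rw [div_le_iff₀ hR0, Real.exp_neg, inv_mul_eq_div, le_div_iff₀ (Real.exp_pos 1)]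
      exact hR
    calc r1 ^ 2 * ((2 * c) ^ R * R.factorial) ≤ r1 ^ 2 * ((2 * c) ^ R * (R : ℝ) ^ R) := by gcongr
      _ = (2 * c / R) ^ R := by
          rw [hr1, ← pow_mul, mul_comm R 2, pow_mul, ← mul_pow, ← mul_pow]
          congr 1
          field_simp
      _ ≤ Real.exp (-1) ^ R := pow_le_pow_left₀ (by positivity) h2 R
      _ = Real.exp (-(R : ℝ)) := by
          rw [← Real.exp_nat_mul]
          congr 1
          ring
  calc (r1 * S * (Real.exp (8 * c) + 1)) ^ 2 = (Real.exp (8 * c) + 1) ^ 2 * (r1 ^ 2 * S ^ 2) := by ring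
    _ ≤ _ := by
        rw [hS2]
        exact mul_le_mul_of_nonneg_left hfin (by positivity)

theorem t_NNQ3 : S_NNQ3 := by
  classical
  intro c hc A
  set c' : ℝ := max ((A:ℝ) ^ 2 * c) 1 with hc'
  have hc1 : 1 ≤ c' := le_max_right _ _
  refine ⟨(Real.exp (8 * c') + 1) ^ 2, ⌈c' * Real.exp 1⌉₊, by positivity, ?_⟩
  intro z J Rs y _ hy hR0 hRs hIc δ hδ α hα hαA i hi
  have hprime : ∀ k, ∀ p ∈ IB z y k, p.Prime := fun k p hp => (mem_IB hp).1
  set f : ℕ → PC := fun k => NKc (20 * RB Rs k) α (xc (IB z y k)) with hf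
  set g : ℕ → PC := fun k => if k = i then f k * QA A z y Rs k else f k with hg
  have hfSu : ∀ k, BLK.Su (Mo (IB z y k)) (f k) := fun k => Su_NKc (hprime k) _ _
  have hgSu : ∀ k, BLK.Su (Mo (IB z y k)) (g k) := by
    intro k
    rw [hg]
    simp only
    split_ifs with h
    · refine (hfSu k).mul (((BLK.Su_Mo_pow (Su_xc (hprime k)) _).smul _)) fun a b ha hb => ?_
      exact BLK.Mo.mul ha hb
    · exact hfSu k
  have hiJ : i ∈ Ico 0 J := mem_Ico.2 ⟨Nat.zero_le _, hi⟩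
  have e1 : BP (fun _ => α) z y 0 J Rs * QA A z y Rs i = ∏ k ∈ Ico 0 J, g k := by
    have h1 : BP (fun _ => α) z y 0 J Rs = ∏ k ∈ Ico 0 J, f k := rfl
    rw [h1, ← Finset.prod_erase_mul _ _ hiJ, ← Finset.prod_erase_mul (Ico 0 J) g hiJ, mul_assoc]
    congr 1
    · refine Finset.prod_congr rfl fun k hk => ?_
      rw [hg]
      simp only
      rw [if_neg (Finset.ne_of_mem_erase hk)]
    · rw [hg]
      simp
  rw [e1, (nn_prod δ (IB z y) (fun k l hkl => IB_disj hy z hkl) g hgSu (Ico 0 J)).1,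
    ← Finset.prod_erase_mul _ _ hiJ]
  have hRBi : 2 * c' * Real.exp 1 ≤ (RB Rs i : ℝ) := by
    have h1 : c' * Real.exp 1 ≤ Rs := (Nat.le_ceil _).trans (by exact_mod_cast hR0)
    unfold RB
    push_cast
    have : (0 : ℝ) ≤ i := Nat.cast_nonneg i
    linarith
  have hgi : nn δ (g i) ≤ (Real.exp (8 * c') + 1) ^ 2 * Real.exp (-(RB Rs i : ℝ)) := by
    have h1 : g i = NKc (20 * RB Rs i) α (xc (IB z y i)) *
        (((((A:ℝ) / (RB Rs i : ℝ)) ^ (RB Rs i) : ℝ) : ℂ) • (xc (IB z y i)) ^ (RB Rs i)) := by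
      show (if i = i then f i * QA A z y Rs i else f i) = _
      rw [if_pos rfl]
      rfl
    rw [h1]
    refine blockQA hc1 hδ (hprime i) ?_ hRBi hα hαA _
    exact (mul_le_mul_of_nonneg_left (hIc i hi) (by positivity)).trans (le_max_left _ _)
  set v : ℕ → ℝ := fun k => ∑ p ∈ IB z y k, wd δ p with hv
  have hv0 : ∀ k, 0 ≤ v k := fun k => Finset.sum_nonneg fun p _ => BLK.wd_nonneg δ p
  have hgk : ∀ k ∈ (Ico 0 J).erase i, nn δ (g k) ≤ Real.exp (α ^ 2 * v k) := by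
    intro k hk
    have hki : k ≠ i := Finset.ne_of_mem_erase hk
    have h1 : g k = NKc (20 * RB Rs k) α (xc (IB z y k)) := by
      rw [hg]
      simp only
      rw [if_neg hki]
    rw [h1]
    exact nn_NKc_le δ (hprime k) _ hα
  have hprod : ∏ k ∈ (Ico 0 J).erase i, nn δ (g k) ≤ Real.exp (α ^ 2 * VB δ z y 0 J) := by
    refine (Finset.prod_le_prod (fun k _ => BLK.nn_nonneg δ (g k)) hgk).trans ?_
    rw [← Real.exp_sum]
    apply Real.exp_le_exp.2
    have h1 : ∑ k ∈ (Ico 0 J).erase i, α ^ 2 * v k ≤ ∑ k ∈ Ico 0 J, α ^ 2 * v k :=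
      Finset.sum_le_sum_of_subset_of_nonneg (Finset.erase_subset _ _) fun k _ _ => by
        have := hv0 k
        positivity
    refine h1.trans (le_of_eq ?_)
    rw [← Finset.mul_sum]
    rfl
  calc (∏ k ∈ (Ico 0 J).erase i, nn δ (g k)) * nn δ (g i)
      ≤ Real.exp (α ^ 2 * VB δ z y 0 J) *
        ((Real.exp (8 * c') + 1) ^ 2 * Real.exp (-(RB Rs i : ℝ))) :=
        mul_le_mul hprod hgi (BLK.nn_nonneg _ _) (Real.exp_pos _).le
    _ = _ := by ring

end Pool.Agent.V5helper15.HM.NNQ3
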